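import Pool.Agent.Helper40.MR.Defs

/-!
# MP_7a8f48_an, module BT: Brun-Titchmarsh for fixed relative length
-/

set_option autoImplicit false

open Finset

namespace Pool.Agent.Helper40.MR

/-- multiples in an interval -/
theorem bt_mult (a b l : ℕ) (hab : a ≤ b) (hl : 0 < l) :
    |(((Ioc a b).filter (fun n => l ∣ n)).card : ℝ) - ((b : ℝ) - a) / l| ≤ 1 := by
  have h1 : ((Ioc a b).filter (fun n => l ∣ n)).card = b / l - a / l := by
    have e1 : (Ioc 0 b).filter (fun n => l ∣ n) =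
        (Ioc 0 a).filter (fun n => l ∣ n) ∪ (Ioc a b).filter (fun n => l ∣ n) := by
      rw [← filter_union, Ioc_union_Ioc_eq_Ioc (Nat.zero_le a) hab]
    have e2 : Disjoint ((Ioc 0 a).filter (fun n => l ∣ n)) ((Ioc a b).filter (fun n => l ∣ n)) := by
      apply disjoint_filter_filter
      rw [Finset.disjoint_left]
      intro x hx hx'
      have := (mem_Ioc.1 hx).2
      have := (mem_Ioc.1 hx').1
      omega
    have e3 := congrArg Finset.card e1
    rw [card_union_of_disjoint e2, Nat.Ioc_filter_dvd_card_eq_div, Nat.Ioc_filter_dvd_card_eq_div]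
      at e3
    omega
  rw [h1, Nat.cast_sub (Nat.div_le_div_right hab)]
  have hl' : (0 : ℝ) < l := by exact_mod_cast hl
  have f1 : ((b / l : ℕ) : ℝ) ≤ (b : ℝ) / l := Nat.cast_div_le
  have f2 : (b : ℝ) / l < ((b / l : ℕ) : ℝ) + 1 := by
    rw [div_lt_iff₀ hl']
    have := Nat.lt_mul_div_succ b hl
    have h3 : b < (b / l + 1) * l := by linarith [Nat.mul_comm l (b / l + 1)]
    exact_mod_cast h3
  have g1 : ((a / l : ℕ) : ℝ) ≤ (a : ℝ) / l := Nat.cast_div_le
  have g2 : (a : ℝ) / l < ((a / l : ℕ) : ℝ) + 1 := by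
    rw [div_lt_iff₀ hl']
    have := Nat.lt_mul_div_succ a hl
    have h3 : a < (a / l + 1) * l := by linarith [Nat.mul_comm l (a / l + 1)]
    exact_mod_cast h3
  rw [sub_div, abs_le]
  constructor <;> linarith

/-- number of primes in an interval -/
theorem bt_count (hS : ST_SEL) (D : ℝ) (a b : ℕ) (hD : 2 ≤ D) (hab : a ≤ b) (hDa : D ≤ a) :
    (((Ioc a b).filter Nat.Prime).card : ℝ) ≤ ((b : ℝ) - a) / Real.log D + D ^ 2 := by
  obtain ⟨ρ, h1, h0, hb, hz, hq0, hq⟩ := hS D hD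
  obtain ⟨m, hm⟩ : ∃ m, m = ⌊D⌋₊ := ⟨_, rfl⟩
  rw [← hm] at hq0 hq
  have hm1 : 1 ≤ m := by
    rw [hm]
    exact Nat.le_floor (by push_cast; linarith)
  have hmD : (m : ℝ) ≤ D := by
    rw [hm]
    exact Nat.floor_le (by linarith)
  let F : ℕ → ℝ := fun n => ∑ d ∈ Icc 1 m, if d ∣ n then ρ d else 0
  have hprime : ∀ p ∈ (Ioc a b).filter Nat.Prime, (1 : ℝ) ≤ F p ^ 2 := by
    intro p hp
    obtain ⟨hp1, hp2⟩ := mem_filter.1 hp
    have hpa := (mem_Ioc.1 hp1).1
    have h2 : F p = 1 := by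
      show (∑ d ∈ Icc 1 m, if d ∣ p then ρ d else 0) = 1
      rw [Finset.sum_eq_single 1]
      · rw [if_pos (one_dvd p), h1]
      · intro d hd hd1
        rw [if_neg]
        intro hdp
        rcases (Nat.dvd_prime hp2).1 hdp with h | h
        · exact hd1 h
        · have h3 := (mem_Icc.1 hd).2
          rw [h] at h3
          have h4 : (p : ℝ) ≤ a := (Nat.cast_le.2 h3).trans (hmD.trans hDa)
          have h5 : p ≤ a := by exact_mod_cast h4
          omega
      · intro h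
        exact absurd (mem_Icc.2 ⟨le_rfl, hm1⟩) h
    rw [h2]
    norm_num
  have step1 : (((Ioc a b).filter Nat.Prime).card : ℝ) ≤ ∑ n ∈ Ioc a b, F n ^ 2 := by
    calc (((Ioc a b).filter Nat.Prime).card : ℝ) = ∑ p ∈ (Ioc a b).filter Nat.Prime, (1 : ℝ) := by
          simp
      _ ≤ ∑ p ∈ (Ioc a b).filter Nat.Prime, F p ^ 2 := sum_le_sum hprime
      _ ≤ _ := sum_le_sum_of_subset_of_nonneg (filter_subset _ _) fun _ _ _ => sq_nonneg _
  have step2 : ∑ n ∈ Ioc a b, F n ^ 2 = ∑ d ∈ Icc 1 m, ∑ e ∈ Icc 1 m, ρ d * ρ e *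
      (((Ioc a b).filter (fun n => Nat.lcm d e ∣ n)).card : ℝ) := by
    have e1 : ∀ n ∈ Ioc a b, F n ^ 2 = ∑ d ∈ Icc 1 m, ∑ e ∈ Icc 1 m,
        if Nat.lcm d e ∣ n then ρ d * ρ e else 0 := by
      intro n _
      show (∑ d ∈ Icc 1 m, if d ∣ n then ρ d else 0) ^ 2 = _
      rw [pow_two, sum_mul_sum]
      refine sum_congr rfl fun d _ => sum_congr rfl fun e _ => ?_
      by_cases h2 : d ∣ n
      · by_cases h3 : e ∣ n
        · rw [if_pos h2, if_pos h3, if_pos (Nat.lcm_dvd h2 h3)]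
        · rw [if_neg h3, mul_zero, if_neg (fun h => h3 ((Nat.dvd_lcm_right d e).trans h))]
      · rw [if_neg h2, zero_mul, if_neg (fun h => h2 ((Nat.dvd_lcm_left d e).trans h))]
    rw [sum_congr rfl e1, sum_comm]
    refine sum_congr rfl fun d _ => ?_
    rw [sum_comm]
    refine sum_congr rfl fun e _ => ?_
    rw [← sum_filter, sum_const, nsmul_eq_mul, mul_comm]
  have step3 : ∑ d ∈ Icc 1 m, ∑ e ∈ Icc 1 m, ρ d * ρ e *
      (((Ioc a b).filter (fun n => Nat.lcm d e ∣ n)).card : ℝ) ≤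
      ((b : ℝ) - a) * (∑ d ∈ Icc 1 m, ∑ e ∈ Icc 1 m, ρ d * ρ e / (Nat.lcm d e : ℝ)) + (m : ℝ) ^ 2 := by
    have e1 : ∀ d ∈ Icc 1 m, ∀ e ∈ Icc 1 m, ρ d * ρ e *
        (((Ioc a b).filter (fun n => Nat.lcm d e ∣ n)).card : ℝ) ≤
        ((b : ℝ) - a) * (ρ d * ρ e / (Nat.lcm d e : ℝ)) + 1 := by
      intro d hd e he
      have hl : 0 < Nat.lcm d e := Nat.lcm_pos (mem_Icc.1 hd).1 (mem_Icc.1 he).1
      have h2 := bt_mult a b (Nat.lcm d e) hab hl
      have h3 : |ρ d * ρ e| ≤ 1 := by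
        rw [abs_mul]
        exact mul_le_one₀ (hb d) (abs_nonneg _) (hb e)
      have h4 : ρ d * ρ e * ((((Ioc a b).filter (fun n => Nat.lcm d e ∣ n)).card : ℝ) -
          ((b : ℝ) - a) / (Nat.lcm d e : ℝ)) ≤ 1 := by
        refine (le_abs_self _).trans ?_
        rw [abs_mul]
        exact mul_le_one₀ h3 (abs_nonneg _) h2
      have h5 : ((b : ℝ) - a) * (ρ d * ρ e / (Nat.lcm d e : ℝ)) =
          ρ d * ρ e * (((b : ℝ) - a) / (Nat.lcm d e : ℝ)) := by ring
      rw [h5]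
      linarith [h4]
    calc _ ≤ ∑ d ∈ Icc 1 m, ∑ e ∈ Icc 1 m,
          (((b : ℝ) - a) * (ρ d * ρ e / (Nat.lcm d e : ℝ)) + 1) :=
          sum_le_sum fun d hd => sum_le_sum fun e he => e1 d hd e he
      _ = _ := by
          simp only [sum_add_distrib, ← mul_sum, sum_const, Nat.card_Icc, nsmul_eq_mul]
          simp
          ring
  have hba : (0 : ℝ) ≤ (b : ℝ) - a := by
    have : (a : ℝ) ≤ b := by exact_mod_cast hab
    linarith
  calc (((Ioc a b).filter Nat.Prime).card : ℝ) ≤ _ := step1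
    _ = _ := step2
    _ ≤ _ := step3
    _ ≤ ((b : ℝ) - a) * (1 / Real.log D) + D ^ 2 := by
        have h2 := mul_le_mul_of_nonneg_left hq hba
        have h3 : (m : ℝ) ^ 2 ≤ D ^ 2 := pow_le_pow_left₀ (Nat.cast_nonneg m) hmD 2
        linarith
    _ = _ := by rw [mul_one_div]

/-- **Module BT.** -/
theorem st_BT (hS : ST_SEL) : ST_BT := by
  refine ⟨14, by norm_num, ?_⟩
  intro h hh
  refine ⟨(16 * h) ^ 4, ?_⟩
  intro y hy
  have hh0 : 0 < h := by linarith
  -- basic inequalities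
  have hy0 : 0 < y := lt_of_lt_of_le (by positivity) hy
  obtain ⟨z, hz⟩ : ∃ z, z = y / h := ⟨_, rfl⟩
  rw [← hz]
  have hyz : y = z * h := by rw [hz]; field_simp
  have hz16 : 8 ≤ z := by
    rw [hz, le_div_iff₀ hh0]
    have h1 : (16 * h) ^ 4 = 65536 * h ^ 4 := by ring
    have h2 : h ≤ h ^ 4 := by
      calc h = h ^ 1 := (pow_one h).symm
        _ ≤ h ^ 4 := pow_le_pow_right₀ hh (by norm_num)
    nlinarith
  have hz0 : 0 < z := by linarith
  have hzy : z ≤ y := by rw [hyz]; nlinarith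
  have hz2 : 2 * y ≤ z ^ 2 := by
    have h1 : 2 * h ^ 2 ≤ y := by
      have h2 : (16 * h) ^ 4 = 65536 * (h ^ 2 * h ^ 2) := by ring
      have h3 : 1 ≤ h ^ 2 := one_le_pow₀ hh
      nlinarith
    have h2 : z ^ 2 * h ^ 2 = y ^ 2 := by rw [hyz]; ring
    have h3 : (2 * y) * h ^ 2 ≤ z ^ 2 * h ^ 2 := by
      rw [h2]; nlinarith
    exact le_of_mul_le_mul_right h3 (by positivity)
  have hlog2y : Real.log (2 * y) ≤ 2 * Real.log z := by
    have h1 := Real.log_le_log (by positivity) hz2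
    rwa [Real.log_pow, Nat.cast_ofNat] at h1
  have hlogz : 0 < Real.log z := Real.log_pos (by linarith)
  have hlog2y0 : 0 ≤ Real.log (2 * y) := Real.log_nonneg (by linarith)
  -- the cube root
  obtain ⟨t, ht⟩ : ∃ t, t = z ^ (1 / 3 : ℝ) := ⟨_, rfl⟩
  have ht3 : t ^ 3 = z := by
    rw [ht, ← Real.rpow_natCast, ← Real.rpow_mul hz0.le]
    norm_num
  have ht0 : 0 < t := by rw [ht]; positivity
  have ht2 : 2 ≤ t := by
    by_contra hcon
    push Not at hcon
    have : t ^ 3 < 2 ^ 3 := pow_lt_pow_left₀ hcon ht0.le (by norm_num)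
    rw [ht3] at this
    linarith
  have hlogt : Real.log z = 3 * Real.log t := by
    rw [← ht3, Real.log_pow]
    norm_num
  have hlogt0 : 0 < Real.log t := Real.log_pos (by linarith)
  have hlogt1 : Real.log t ≤ t := by
    have := Real.log_le_sub_one_of_pos ht0
    linarith
  -- the interval
  obtain ⟨a, ha⟩ : ∃ a, a = ⌊y⌋₊ := ⟨_, rfl⟩
  obtain ⟨b, hb⟩ : ∃ b, b = ⌊y + z⌋₊ := ⟨_, rfl⟩
  have hab : a ≤ b := by
    rw [ha, hb]
    exact Nat.floor_le_floor (by linarith)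
  have ha1 : y - 1 < a := by
    rw [ha]
    have := Nat.lt_floor_add_one y
    linarith
  have hb1 : (b : ℝ) ≤ y + z := by
    rw [hb]
    exact Nat.floor_le (by linarith)
  have hba : (b : ℝ) - a ≤ z + 1 := by linarith
  have hta : t ≤ a := by
    have h1 : t * 4 ≤ z := by
      rw [← ht3]
      nlinarith [mul_nonneg ht0.le (by nlinarith : (0 : ℝ) ≤ t ^ 2 - 4)]
    linarith
  have hI : IocN y (y + z) = Ioc a b := by
    unfold IocN
    rw [ha, hb]
  rw [hI]
  have hbt := bt_count hS t a b ht2 hab hta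
  -- split into primes and the rest
  rw [← Finset.sum_filter_add_sum_filter_not (Ioc a b) Nat.Prime]
  have p1 : ∑ d ∈ (Ioc a b).filter Nat.Prime, ArithmeticFunction.vonMangoldt d ≤
      (((Ioc a b).filter Nat.Prime).card : ℝ) * Real.log (2 * y) := by
    rw [← nsmul_eq_mul]
    refine sum_le_card_nsmul _ _ _ ?_
    intro p hp
    obtain ⟨hp1, hp2⟩ := mem_filter.1 hp
    rw [ArithmeticFunction.vonMangoldt_apply_prime hp2]
    apply Real.log_le_log (by exact_mod_cast hp2.pos)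
    have h1 : (p : ℝ) ≤ b := by exact_mod_cast (mem_Ioc.1 hp1).2
    linarith
  have p2 : ∑ d ∈ (Ioc a b).filter (fun d => ¬ Nat.Prime d), ArithmeticFunction.vonMangoldt d ≤
      2 * √(2 * y) * Real.log (2 * y) := by
    have h1 := Chebyshev.psi_sub_theta_le (x := 2 * y) (by linarith)
    rw [Chebyshev.psi_sub_theta_eq_sum_not_prime] at h1
    refine le_trans (sum_le_sum_of_subset_of_nonneg ?_
      (fun _ _ _ => ArithmeticFunction.vonMangoldt_nonneg)) h1
    intro d hd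
    obtain ⟨hd1, hd2⟩ := mem_filter.1 hd
    rw [mem_filter, mem_Ioc]
    obtain ⟨hd3, hd4⟩ := mem_Ioc.1 hd1
    refine ⟨⟨by omega, ?_⟩, hd2⟩
    apply Nat.le_floor
    have h2 : (d : ℝ) ≤ b := by exact_mod_cast hd4
    linarith
  -- estimates
  have q1 : (((Ioc a b).filter Nat.Prime).card : ℝ) * Real.log (2 * y) ≤ 13 * z := by
    have h1 : (((Ioc a b).filter Nat.Prime).card : ℝ) ≤ (z + 1) / Real.log t + t ^ 2 := by
      refine hbt.trans ?_
      have := div_le_div_of_nonneg_right hba hlogt0.le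
      linarith
    have h2 : 0 ≤ (z + 1) / Real.log t + t ^ 2 := by positivity
    calc _ ≤ ((z + 1) / Real.log t + t ^ 2) * (2 * (3 * Real.log t)) := by
          rw [← hlogt]
          exact mul_le_mul h1 hlog2y hlog2y0 h2
      _ = 6 * (z + 1) + 6 * (t ^ 2 * Real.log t) := by field_simp; ring
      _ ≤ 6 * (z + 1) + 6 * (t ^ 2 * t) := by
          have := mul_le_mul_of_nonneg_left hlogt1 (by positivity : (0 : ℝ) ≤ t ^ 2)
          linarith
      _ = 6 * (z + 1) + 6 * z := by rw [← ht3]; ring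
      _ ≤ 13 * z := by linarith
  have q2 : 2 * √(2 * y) * Real.log (2 * y) ≤ z := by
    obtain ⟨w, hw⟩ : ∃ w, w = (2 * y) ^ (1 / 4 : ℝ) := ⟨_, rfl⟩
    have hw0 : 0 < w := by rw [hw]; positivity
    have hw4 : w ^ 4 = 2 * y := by
      rw [hw, ← Real.rpow_natCast, ← Real.rpow_mul (by positivity)]
      norm_num
    have hws : √(2 * y) = w ^ 2 := by
      rw [← hw4]
      have : w ^ 4 = (w ^ 2) ^ 2 := by ring
      rw [this, Real.sqrt_sq (by positivity)]
    have hwl : Real.log (2 * y) ≤ 4 * w := by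
      rw [← hw4, Real.log_pow]
      have := Real.log_le_sub_one_of_pos hw0
      push_cast
      linarith
    have hw16 : 16 * h ≤ w := by
      by_contra hcon
      push Not at hcon
      have : w ^ 4 < (16 * h) ^ 4 := pow_lt_pow_left₀ hcon hw0.le (by norm_num)
      rw [hw4] at this
      linarith
    rw [hws]
    have h1 : 2 * w ^ 2 * Real.log (2 * y) ≤ 2 * w ^ 2 * (4 * w) :=
      mul_le_mul_of_nonneg_left hwl (by positivity)
    refine h1.trans ?_
    rw [hz, le_div_iff₀ hh0]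
    have h2 : y = w ^ 4 / 2 := by rw [hw4]; ring
    rw [h2]
    have h3 : w ^ 3 * (16 * h) ≤ w ^ 3 * w := mul_le_mul_of_nonneg_left hw16 (by positivity)
    nlinarith
  linarith

end Pool.Agent.Helper40.MR
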