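import Pool.Agent.Helper40.MR.Defs

/-!
# MP_7a8f48_an, module H1: first step of Halasz's theorem
-/

set_option autoImplicit false

open Finset

namespace Pool.Agent.Helper40.MR

theorem h1_mult (N d : ℕ) (hd : 1 ≤ d) (F : ℕ → ℂ) :
    ∑ n ∈ (Icc 1 N).filter (fun n => d ∣ n), F n = ∑ m ∈ Icc 1 (N / d), F (d * m) := by
  have h1 : (Icc 1 N).filter (fun n => d ∣ n) = (Icc 1 (N / d)).image (fun m => d * m) := by
    ext n
    rw [mem_filter, mem_image, mem_Icc]
    constructor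
    · rintro ⟨⟨h1, h2⟩, m, rfl⟩
      refine ⟨m, mem_Icc.2 ⟨Nat.pos_of_ne_zero (by rintro rfl; simp at h1), ?_⟩, rfl⟩
      rw [Nat.le_div_iff_mul_le hd, mul_comm]
      exact h2
    · rintro ⟨m, hm, rfl⟩
      obtain ⟨h1, h2⟩ := mem_Icc.1 hm
      rw [Nat.le_div_iff_mul_le hd, mul_comm] at h2
      exact ⟨⟨Nat.mul_pos hd h1, h2⟩, dvd_mul_right d m⟩
  rw [h1, sum_image]
  intro a _ b _ hab
  exact Nat.eq_of_mul_eq_mul_left hd hab

/-- the sum of `log (x / n)` -/
theorem h1_log (x : ℝ) (hx : 1 ≤ x) :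
    ∑ n ∈ Icc 1 ⌊x⌋₊, (Real.log x - Real.log n) ≤ x := by
  obtain ⟨N, hN⟩ : ∃ N, N = ⌊x⌋₊ := ⟨_, rfl⟩
  rw [← hN]
  have hN1 : 1 ≤ N := by
    rw [hN]
    exact Nat.le_floor (by exact_mod_cast hx)
  have hNR : (0 : ℝ) < N := by exact_mod_cast hN1
  have hNx : (N : ℝ) ≤ x := by
    rw [hN]
    exact Nat.floor_le (by linarith)
  have h1 : ∑ n ∈ Icc 1 N, Real.log n = Real.log (N.factorial : ℝ) := by
    have key : ∀ M : ℕ, ∑ n ∈ Icc 1 M, Real.log n = Real.log (M.factorial : ℝ) := by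
      intro M
      induction M with
      | zero => simp
      | succ M ih =>
        rw [Finset.sum_Icc_succ_top (by omega), ih, Nat.factorial_succ, Nat.cast_mul,
          Real.log_mul (by positivity) (by exact_mod_cast (Nat.factorial_pos M).ne'), add_comm]
    exact key N
  rw [sum_sub_distrib, h1, sum_const, Nat.card_Icc, nsmul_eq_mul, Nat.add_sub_cancel]
  have h2 := Real.pow_div_factorial_le_exp (N : ℝ) hNR.le N
  have hf : (0 : ℝ) < (N.factorial : ℝ) := by exact_mod_cast Nat.factorial_pos N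
  have h3 := Real.log_le_log (by positivity) h2
  rw [Real.log_exp, Real.log_div (by positivity) hf.ne', Real.log_pow] at h3
  have h4 : Real.log x - Real.log N ≤ x / N - 1 := by
    rw [← Real.log_div (by linarith) hNR.ne']
    exact Real.log_le_sub_one_of_pos (by positivity)
  have h5 : (N : ℝ) * (Real.log x - Real.log N) ≤ x - N := by
    calc (N : ℝ) * (Real.log x - Real.log N) ≤ N * (x / N - 1) :=
          mul_le_mul_of_nonneg_left h4 hNR.le
      _ = x - N := by field_simp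
  nlinarith

/-- **Module H1.** -/
theorem st_H1 : ST_H1 := by
  refine ⟨1, one_pos, ?_⟩
  intro g hg x hx
  obtain ⟨hg1, hgm, hgb⟩ := hg
  obtain ⟨N, hN⟩ : ∃ N, N = ⌊x⌋₊ := ⟨_, rfl⟩
  have hx0 : 0 < x := by linarith
  have hlog : 0 ≤ Real.log x := Real.log_nonneg hx
  have e1 : Sg g x * (Real.log x : ℂ) = ∑ n ∈ Icc 1 N, g n * (Real.log n : ℂ) +
      ∑ n ∈ Icc 1 N, g n * ((Real.log x - Real.log n : ℝ) : ℂ) := by
    unfold Sg
    rw [← hN, sum_mul, ← sum_add_distrib]
    refine sum_congr rfl fun n _ => ?_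
    push_cast
    ring
  have e2 : ∑ n ∈ Icc 1 N, g n * (Real.log n : ℂ) =
      ∑ d ∈ Icc 1 N, (ArithmeticFunction.vonMangoldt d : ℂ) * (g d * Sg g (x / d)) := by
    have h1 : ∀ n ∈ Icc 1 N, g n * (Real.log n : ℂ) =
        ∑ d ∈ Icc 1 N, if d ∣ n then (ArithmeticFunction.vonMangoldt d : ℂ) * g n else 0 := by
      intro n hn
      obtain ⟨hn1, hn2⟩ := mem_Icc.1 hn
      have h2 : (Real.log n : ℂ) = ∑ d ∈ n.divisors, (ArithmeticFunction.vonMangoldt d : ℂ) := by
        rw [← ArithmeticFunction.vonMangoldt_sum]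
        push_cast
        rfl
      rw [h2, mul_sum, ← sum_filter]
      have h3 : n.divisors = (Icc 1 N).filter (fun d => d ∣ n) := by
        ext d
        rw [Nat.mem_divisors, mem_filter, mem_Icc]
        constructor
        · rintro ⟨h4, _⟩
          exact ⟨⟨Nat.pos_of_dvd_of_pos h4 hn1, (Nat.le_of_dvd hn1 h4).trans hn2⟩, h4⟩
        · rintro ⟨_, h4⟩
          exact ⟨h4, by omega⟩
      rw [h3]
      exact sum_congr rfl fun d _ => mul_comm _ _
    rw [sum_congr rfl h1, sum_comm]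
    refine sum_congr rfl fun d hd => ?_
    have hd1 := (mem_Icc.1 hd).1
    rw [← sum_filter, h1_mult N d hd1]
    have h4 : N / d = ⌊x / d⌋₊ := by
      rw [Nat.floor_div_natCast, hN]
    unfold Sg
    rw [← h4, mul_sum, mul_sum]
    refine sum_congr rfl fun m _ => ?_
    rw [hgm]
  have e3 : ‖∑ n ∈ Icc 1 N, g n * ((Real.log x - Real.log n : ℝ) : ℂ)‖ ≤ x := by
    refine (norm_sum_le _ _).trans (le_trans ?_ (h1_log x hx))
    rw [← hN]
    refine sum_le_sum fun n hn => ?_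
    obtain ⟨hn1, hn2⟩ := mem_Icc.1 hn
    have h5 : (n : ℝ) ≤ x := by
      have : (n : ℝ) ≤ N := by exact_mod_cast hn2
      refine this.trans ?_
      rw [hN]
      exact Nat.floor_le hx0.le
    have h6 : 0 ≤ Real.log x - Real.log n := by
      have := Real.log_le_log (by exact_mod_cast hn1) h5
      linarith
    rw [norm_mul, Complex.norm_real, Real.norm_of_nonneg h6]
    exact mul_le_of_le_one_left h6 (hgb n)
  have e4 : ‖∑ d ∈ Icc 1 N, (ArithmeticFunction.vonMangoldt d : ℂ) * (g d * Sg g (x / d))‖ ≤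
      ∑ d ∈ Icc 1 N, ArithmeticFunction.vonMangoldt d * ‖Sg g (x / d)‖ := by
    refine (norm_sum_le _ _).trans (sum_le_sum fun d _ => ?_)
    rw [norm_mul, norm_mul, Complex.norm_real,
      Real.norm_of_nonneg ArithmeticFunction.vonMangoldt_nonneg]
    refine mul_le_mul_of_nonneg_left ?_ ArithmeticFunction.vonMangoldt_nonneg
    exact mul_le_of_le_one_left (norm_nonneg _) (hgb d)
  rw [← hN, one_mul]
  calc ‖Sg g x‖ * Real.log x = ‖Sg g x * (Real.log x : ℂ)‖ := by
        rw [norm_mul, Complex.norm_real, Real.norm_of_nonneg hlog]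
    _ = _ := by rw [e1, e2]
    _ ≤ _ := norm_add_le _ _
    _ ≤ _ := add_le_add e4 e3

end Pool.Agent.Helper40.MR
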