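import Pool.Agent.Helper40.MR.Defs

/-!
# MP_7a8f48_an, module SEL: Selberg's weights
-/

set_option autoImplicit false

open Finset

namespace Pool.Agent.Helper40.MR

/-- squarefree numbers up to `n` -/
def sel_S (n : ℕ) : Finset ℕ := (Icc 1 n).filter Squarefree

theorem sel_mem {n k : ℕ} : k ∈ sel_S n ↔ (1 ≤ k ∧ k ≤ n) ∧ Squarefree k := by
  unfold sel_S
  rw [mem_filter, mem_Icc]

noncomputable def sel_G (n : ℕ) : ℝ := ∑ k ∈ sel_S n, 1 / (Nat.totient k : ℝ)

theorem sel_phi_pos {k : ℕ} (h : 1 ≤ k) : (0 : ℝ) < (Nat.totient k : ℝ) := by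
  exact_mod_cast Nat.totient_pos.2 h

/-- radical -/
def sel_rad (m : ℕ) : ℕ := ∏ p ∈ m.primeFactors, p

theorem sel_rad_dvd (m : ℕ) : sel_rad m ∣ m := Nat.prod_primeFactors_dvd m

theorem sel_rad_sf (m : ℕ) : Squarefree (sel_rad m) := by
  have h := UniqueFactorizationMonoid.squarefree_radical (a := m)
  rwa [Nat.radical_eq_prod_primeFactors] at h

/-- numbers with a given radical -/
theorem sel_fib (n k : ℕ) (hk : 1 ≤ k) :
    ∑ m ∈ (Icc 1 n).filter (fun m => sel_rad m = k), (1 : ℝ) / m ≤ 1 / (Nat.totient k : ℝ) := by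
  have hk0 : k ≠ 0 := by omega
  have hkR : (k : ℝ) ≠ 0 := by exact_mod_cast hk0
  let f : ℕ →* ℝ := ⟨⟨fun m => ((m : ℝ))⁻¹, by simp⟩, fun a b => by push_cast; rw [mul_inv]⟩
  have hf : ∀ m : ℕ, f m = (m : ℝ)⁻¹ := fun _ => rfl
  have hfp : ∀ {p : ℕ}, p.Prime → ‖f p‖ < 1 := by
    intro p hp
    rw [hf, norm_inv, Real.norm_natCast]
    apply inv_lt_one_of_one_lt₀
    exact_mod_cast hp.one_lt
  obtain ⟨hs, hsum⟩ :=
    EulerProduct.summable_and_hasSum_factoredNumbers_prod_filter_prime_geometric hfp k.primeFactors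
  have hval : ∏ p ∈ k.primeFactors with p.Prime, (1 - f p)⁻¹ = k / (Nat.totient k : ℝ) := by
    have h1 : (k.primeFactors.filter Nat.Prime) = k.primeFactors :=
      filter_true_of_mem fun p hp => Nat.prime_of_mem_primeFactors hp
    rw [h1, Finset.prod_inv_distrib]
    have h2 := Nat.totient_eq_mul_prod_factors k
    have h3 : (Nat.totient k : ℝ) = k * ∏ p ∈ k.primeFactors, (1 - (p : ℝ)⁻¹) := by
      have := congrArg (fun x : ℚ => (x : ℝ)) h2
      push_cast at this
      exact this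
    have h4 : ∏ p ∈ k.primeFactors, (1 - f p) ≠ 0 := by
      intro h
      have h5 : (Nat.totient k : ℝ) = 0 := by
        rw [h3]
        simp only [hf] at h
        rw [h, mul_zero]
      exact (sel_phi_pos hk).ne' h5
    rw [h3]
    simp only [hf] at h4 ⊢
    field_simp
  -- the map m ↦ m / k
  have hmaps : ∀ m ∈ (Icc 1 n).filter (fun m => sel_rad m = k), ∃ u : ℕ, m = k * u ∧
      u ∈ Nat.factoredNumbers k.primeFactors := by
    intro m hm
    obtain ⟨hm1, hm2⟩ := mem_filter.1 hm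
    have hm0 : m ≠ 0 := by
      have := (mem_Icc.1 hm1).1
      omega
    obtain ⟨u, hu⟩ := hm2 ▸ sel_rad_dvd m
    refine ⟨u, hu, ?_⟩
    rw [Nat.mem_factoredNumbers']
    intro p hp hpu
    have h1 : p ∈ m.primeFactors := by
      rw [Nat.mem_primeFactors]
      exact ⟨hp, hu ▸ Dvd.dvd.mul_left hpu k, hm0⟩
    rw [Nat.mem_primeFactors]
    refine ⟨hp, ?_, hk0⟩
    rw [← hm2]
    exact Finset.dvd_prod_of_mem _ h1
  choose! u hu hu2 using hmaps
  have h1 : ∑ m ∈ (Icc 1 n).filter (fun m => sel_rad m = k), (1 : ℝ) / m =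
      (1 / k) * ∑ m ∈ (Icc 1 n).filter (fun m => sel_rad m = k), f (u m) := by
    rw [mul_sum]
    refine sum_congr rfl fun m hm => ?_
    rw [hf]
    have : (m : ℝ) = k * u m := by exact_mod_cast hu m hm
    rw [this, one_div, one_div, mul_inv]
  have h2 : ∑ m ∈ (Icc 1 n).filter (fun m => sel_rad m = k), f (u m) ≤ k / (Nat.totient k : ℝ) := by
    rw [← hval, ← hsum.tsum_eq]
    have hinj : Set.InjOn (fun m => u m) ((Icc 1 n).filter (fun m => sel_rad m = k) : Finset ℕ) := by
      intro a ha b hb hab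
      rw [hu a ha, hu b hb]
      simp only at hab
      rw [hab]
    let v : {m // m ∈ (Icc 1 n).filter (fun m => sel_rad m = k)} → Nat.factoredNumbers k.primeFactors :=
      fun m => ⟨u m.1, hu2 m.1 m.2⟩
    have hv : Function.Injective v := by
      intro a b hab
      apply Subtype.ext
      exact hinj a.2 b.2 (congrArg Subtype.val hab)
    have h3 : ∑ m ∈ (Icc 1 n).filter (fun m => sel_rad m = k), f (u m) =
        ∑ m : {m // m ∈ (Icc 1 n).filter (fun m => sel_rad m = k)},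
          (fun w : Nat.factoredNumbers k.primeFactors => f w) (v m) := by
      rw [← Finset.sum_attach]
      rfl
    rw [h3, ← Finset.sum_image (f := fun w : Nat.factoredNumbers k.primeFactors => f w)
      (hv.injOn)]
    refine hsum.summable.sum_le_tsum _ ?_
    intro w _
    rw [hf]
    positivity
  rw [h1]
  calc (1 / (k : ℝ)) * _ ≤ (1 / k) * (k / (Nat.totient k : ℝ)) :=
        mul_le_mul_of_nonneg_left h2 (by positivity)
    _ = _ := by field_simp

theorem sel_G_ge (n : ℕ) : Real.log (n + 1) ≤ sel_G n := by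
  have h1 := log_add_one_le_harmonic n
  have h2 : ((harmonic n : ℚ) : ℝ) = ∑ m ∈ Icc 1 n, (1 : ℝ) / m := by
    rw [harmonic_eq_sum_Icc]
    push_cast
    simp only [one_div]
  rw [h2] at h1
  push_cast at h1
  refine h1.trans ?_
  rw [← Finset.sum_fiberwise_of_maps_to (s := Icc 1 n) (t := sel_S n) (g := sel_rad)]
  · unfold sel_G
    exact sum_le_sum fun k hk => sel_fib n k (sel_mem.1 hk).1.1
  · intro m hm
    obtain ⟨hm1, hm2⟩ := mem_Icc.1 hm
    rw [sel_mem]
    have h3 : 0 < sel_rad m := Nat.pos_of_ne_zero (sel_rad_sf m).ne_zero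
    exact ⟨⟨h3, (Nat.le_of_dvd (by omega) (sel_rad_dvd m)).trans hm2⟩, sel_rad_sf m⟩

theorem sel_gcd (n d e : ℕ) (hd : d ∈ Icc 1 n) :
    ∑ k ∈ Icc 1 n, (Nat.totient k : ℝ) * (if k ∣ d then if k ∣ e then 1 else 0 else 0) =
      (Nat.gcd d e : ℝ) := by
  obtain ⟨hd1, hd2⟩ := mem_Icc.1 hd
  have h1 := Nat.sum_totient (Nat.gcd d e)
  have h2 : (Nat.gcd d e : ℝ) = ∑ k ∈ (Nat.gcd d e).divisors, (Nat.totient k : ℝ) := by
    exact_mod_cast h1.symm
  rw [h2]
  have h3 : (Nat.gcd d e).divisors ⊆ Icc 1 n := by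
    intro k hk
    have h4 := Nat.dvd_of_mem_divisors hk
    have h5 : k ∣ d := h4.trans (Nat.gcd_dvd_left d e)
    rw [mem_Icc]
    exact ⟨Nat.pos_of_mem_divisors hk, (Nat.le_of_dvd hd1 h5).trans hd2⟩
  rw [← Finset.sum_subset h3]
  · refine sum_congr rfl fun k hk => ?_
    have h4 := Nat.dvd_of_mem_divisors hk
    rw [if_pos (h4.trans (Nat.gcd_dvd_left d e)), if_pos (h4.trans (Nat.gcd_dvd_right d e)), mul_one]
  · intro k _ hk
    by_cases h4 : k ∣ d
    · by_cases h5 : k ∣ e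
      · exfalso
        apply hk
        rw [Nat.mem_divisors]
        exact ⟨Nat.dvd_gcd h4 h5, by
          have := Nat.gcd_pos_of_pos_left e hd1
          omega⟩
      · rw [if_pos h4, if_neg h5, mul_zero]
    · rw [if_neg h4, mul_zero]

/-- diagonalization -/
theorem sel_diag (n : ℕ) (ρ : ℕ → ℝ) :
    ∑ d ∈ Icc 1 n, ∑ e ∈ Icc 1 n, ρ d * ρ e / (Nat.lcm d e : ℝ) =
      ∑ k ∈ Icc 1 n, (Nat.totient k : ℝ) *
        (∑ d ∈ Icc 1 n, if k ∣ d then ρ d / d else 0) ^ 2 := by
  have h1 : ∀ k ∈ Icc 1 n, (Nat.totient k : ℝ) *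
        (∑ d ∈ Icc 1 n, if k ∣ d then ρ d / d else 0) ^ 2 =
      ∑ d ∈ Icc 1 n, ∑ e ∈ Icc 1 n, (ρ d / d) * (ρ e / e) *
        ((Nat.totient k : ℝ) * (if k ∣ d then if k ∣ e then 1 else 0 else 0)) := by
    intro k _
    rw [pow_two, sum_mul_sum, mul_sum]
    refine sum_congr rfl fun d _ => ?_
    rw [mul_sum]
    refine sum_congr rfl fun e _ => ?_
    split_ifs <;> ring
  have h0 : ∑ k ∈ Icc 1 n, ∑ d ∈ Icc 1 n, ∑ e ∈ Icc 1 n, (ρ d / d) * (ρ e / e) *
        ((Nat.totient k : ℝ) * (if k ∣ d then if k ∣ e then 1 else 0 else 0)) =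
      ∑ d ∈ Icc 1 n, ∑ e ∈ Icc 1 n, ∑ k ∈ Icc 1 n, (ρ d / d) * (ρ e / e) *
        ((Nat.totient k : ℝ) * (if k ∣ d then if k ∣ e then 1 else 0 else 0)) := by
    rw [sum_comm]
    exact sum_congr rfl fun d _ => sum_comm
  rw [sum_congr rfl h1, h0]
  refine sum_congr rfl fun d hd => ?_
  refine sum_congr rfl fun e he => ?_
  rw [← mul_sum, sel_gcd n d e hd]
  have hd0 : (d : ℝ) ≠ 0 := by
    have := (mem_Icc.1 hd).1
    exact_mod_cast (by omega : d ≠ 0)
  have he0 : (e : ℝ) ≠ 0 := by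
    have := (mem_Icc.1 he).1
    exact_mod_cast (by omega : e ≠ 0)
  have h2 : (Nat.gcd d e : ℝ) * (Nat.lcm d e : ℝ) = d * e := by
    exact_mod_cast Nat.gcd_mul_lcm d e
  have hl0 : (Nat.lcm d e : ℝ) ≠ 0 := by
    intro h
    rw [h, mul_zero] at h2
    exact mul_ne_zero hd0 he0 h2.symm
  rw [div_eq_iff hl0]
  field_simp
  linear_combination (-(ρ d * ρ e)) * h2

theorem sel_mu (m : ℕ) : ∑ e ∈ m.divisors, (ArithmeticFunction.moebius (m / e) : ℝ) =
    if m = 1 then 1 else 0 := by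
  have h1 := congrArg (fun f : ArithmeticFunction ℤ => f m) ArithmeticFunction.moebius_mul_coe_zeta
  simp only [ArithmeticFunction.coe_mul_zeta_apply, ArithmeticFunction.one_apply] at h1
  have h2 : ∑ e ∈ m.divisors, (ArithmeticFunction.moebius (m / e) : ℤ) =
      ∑ e ∈ m.divisors, (ArithmeticFunction.moebius e : ℤ) :=
    Nat.sum_div_divisors m (fun e => (ArithmeticFunction.moebius e : ℤ))
  rw [← h2] at h1
  have h3 := congrArg (fun z : ℤ => (z : ℝ)) h1
  push_cast at h3
  exact h3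

/-- Moebius inversion -/
theorem sel_choice (n : ℕ) (y : ℕ → ℝ) (k : ℕ) (hk : k ∈ Icc 1 n) :
    (∑ d ∈ Icc 1 n, if k ∣ d then (∑ j ∈ Icc 1 n, if d ∣ j then
      (ArithmeticFunction.moebius (j / d) : ℝ) * y j else 0) else 0) = y k := by
  obtain ⟨hk1, hk2⟩ := mem_Icc.1 hk
  have h1 : ∀ d ∈ Icc 1 n, (if k ∣ d then (∑ j ∈ Icc 1 n, if d ∣ j then
      (ArithmeticFunction.moebius (j / d) : ℝ) * y j else 0) else 0) =
      ∑ j ∈ Icc 1 n, if k ∣ d then if d ∣ j then
        (ArithmeticFunction.moebius (j / d) : ℝ) * y j else 0 else 0 := by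
    intro d _
    split_ifs with h
    · rfl
    · rw [sum_const_zero]
  rw [sum_congr rfl h1, sum_comm, Finset.sum_eq_single k]
  · rw [Finset.sum_eq_single k]
    · rw [if_pos dvd_rfl, if_pos dvd_rfl, Nat.div_self hk1]
      simp
    · intro d _ hd
      by_cases h2 : k ∣ d
      · by_cases h3 : d ∣ k
        · exact absurd (Nat.dvd_antisymm h3 h2) hd
        · rw [if_pos h2, if_neg h3]
      · rw [if_neg h2]
    · intro h; exact absurd hk h
  · intro j hj hjk
    obtain ⟨hj1, hj2⟩ := mem_Icc.1 hj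
    by_cases hkj : k ∣ j
    · obtain ⟨m, rfl⟩ := hkj
      have hm0 : 0 < m := Nat.pos_of_ne_zero (by rintro rfl; simp at hj1)
      have hm1 : m ≠ 1 := by
        rintro rfl
        exact hjk (mul_one k)
      have h2 : ∑ d ∈ Icc 1 n, (if k ∣ d then if d ∣ k * m then
          (ArithmeticFunction.moebius (k * m / d) : ℝ) * y (k * m) else 0 else 0) =
          ∑ e ∈ m.divisors, (ArithmeticFunction.moebius (m / e) : ℝ) * y (k * m) := by
        symm
        refine Finset.sum_of_injOn (fun e => k * e) ?_ ?_ ?_ ?_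
        · intro a _ b _ hab
          exact Nat.eq_of_mul_eq_mul_left hk1 hab
        · intro e he
          have he' := Nat.dvd_of_mem_divisors (Finset.mem_coe.1 he)
          have he0 := Nat.pos_of_mem_divisors (Finset.mem_coe.1 he)
          rw [Finset.mem_coe, mem_Icc]
          exact ⟨Nat.mul_pos hk1 he0, (Nat.mul_le_mul_left k (Nat.le_of_dvd hm0 he')).trans hj2⟩
        · intro d _ hd2
          by_cases h3 : k ∣ d
          · by_cases h4 : d ∣ k * m
            · exfalso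
              apply hd2
              obtain ⟨e, rfl⟩ := h3
              refine ⟨e, ?_, rfl⟩
              rw [Finset.mem_coe, Nat.mem_divisors]
              exact ⟨Nat.dvd_of_mul_dvd_mul_left hk1 h4, hm0.ne'⟩
            · rw [if_pos h3, if_neg h4]
          · rw [if_neg h3]
        · intro e he
          have he' := Nat.dvd_of_mem_divisors he
          show _ = if k ∣ k * e then if k * e ∣ k * m then
            (ArithmeticFunction.moebius (k * m / (k * e)) : ℝ) * y (k * m) else 0 else 0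
          rw [if_pos (dvd_mul_right k e), if_pos (Nat.mul_dvd_mul_left k he'),
            Nat.mul_div_mul_left _ _ hk1]
      rw [h2, ← sum_mul, sel_mu, if_neg hm1, zero_mul]
    · refine sum_eq_zero fun d _ => ?_
      by_cases h2 : k ∣ d
      · by_cases h3 : d ∣ j
        · exact absurd (h2.trans h3) hkj
        · rw [if_pos h2, if_neg h3]
      · rw [if_neg h2]
  · intro h; exact absurd hk h

/-- the bound for the weights -/
theorem sel_bound (n d : ℕ) (hd : 1 ≤ d) :
    (d : ℝ) * ∑ j ∈ (sel_S n).filter (fun j => d ∣ j), 1 / (Nat.totient j : ℝ) ≤ sel_G n := by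
  have h1 : (d : ℝ) * ∑ j ∈ (sel_S n).filter (fun j => d ∣ j), 1 / (Nat.totient j : ℝ) =
      ∑ x ∈ ((sel_S n).filter (fun j => d ∣ j)) ×ˢ d.divisors,
        1 / (Nat.totient (x.1 / x.2) : ℝ) := by
    rw [sum_product, mul_sum]
    refine sum_congr rfl fun j hj => ?_
    obtain ⟨hj1, hj2⟩ := mem_filter.1 hj
    obtain ⟨⟨hj3, hj4⟩, hj5⟩ := sel_mem.1 hj1
    have h2 : (d : ℝ) = ∑ l ∈ d.divisors, (Nat.totient l : ℝ) := by
      exact_mod_cast (Nat.sum_totient d).symm
    rw [h2, sum_mul]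
    refine sum_congr rfl fun l hl => ?_
    have hlj : l ∣ j := (Nat.dvd_of_mem_divisors hl).trans hj2
    have hl0 := Nat.pos_of_mem_divisors hl
    obtain ⟨m, rfl⟩ := hlj
    have hm0 : 0 < m := Nat.pos_of_ne_zero (by rintro rfl; simp at hj3)
    rw [Nat.mul_div_cancel_left m hl0, Nat.totient_mul (Nat.squarefree_mul_iff.1 hj5).1]
    have := sel_phi_pos hl0
    have := sel_phi_pos hm0
    push_cast
    field_simp
  rw [h1]
  have hinj : Set.InjOn (fun x : ℕ × ℕ => x.1 / x.2)
      (((sel_S n).filter (fun j => d ∣ j)) ×ˢ d.divisors : Finset (ℕ × ℕ)) := by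
    -- from the quotient recover the divisor
    have key : ∀ x ∈ ((sel_S n).filter (fun j => d ∣ j)) ×ˢ d.divisors,
        x.2 * Nat.gcd (x.1 / x.2) d = d ∧ x.1 = x.2 * (x.1 / x.2) := by
      rintro ⟨j, l⟩ hx
      obtain ⟨hj, hl⟩ := mem_product.1 hx
      obtain ⟨hj1, c, hc⟩ := mem_filter.1 hj
      obtain ⟨_, hj5⟩ := sel_mem.1 hj1
      obtain ⟨m, hm⟩ := Nat.dvd_of_mem_divisors hl
      have hl0 := Nat.pos_of_mem_divisors hl
      simp only at hc hj5 hm hl0 ⊢
      have e1 : j / l = m * c := by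
        rw [hc, hm, mul_assoc, Nat.mul_div_cancel_left _ hl0]
      have hcop : Nat.Coprime c (l * m) := by
        rw [hc, Nat.squarefree_mul_iff, hm] at hj5
        exact hj5.1.symm
      have hcl : Nat.Coprime c l := Nat.Coprime.coprime_mul_right_right hcop
      refine ⟨?_, ?_⟩
      · rw [e1, hm]
        have e2 : Nat.gcd (m * c) (l * m) = m := by
          rw [mul_comm l m, Nat.gcd_mul_left, hcl.gcd_eq_one, mul_one]
        rw [e2]
      · rw [e1, hc, hm]; ring
    intro x hx x' hx' hxx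
    obtain ⟨h2, h3⟩ := key x hx
    obtain ⟨h4, h5⟩ := key x' hx'
    simp only at hxx
    rw [← hxx] at h4 h5
    have h6 : 0 < Nat.gcd (x.1 / x.2) d := Nat.gcd_pos_of_pos_right _ hd
    have h7 : x.2 = x'.2 := Nat.eq_of_mul_eq_mul_right h6 (h2.trans h4.symm)
    have h8 : x.1 = x'.1 := by rw [h3, h5, h7]
    exact Prod.ext h8 h7
  rw [← Finset.sum_image (f := fun k : ℕ => 1 / (Nat.totient k : ℝ)) hinj]
  unfold sel_G
  refine sum_le_sum_of_subset_of_nonneg ?_ (fun _ _ _ => by positivity)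
  intro k hk
  obtain ⟨⟨j, l⟩, hx, rfl⟩ := mem_image.1 hk
  obtain ⟨hj, hl⟩ := mem_product.1 hx
  obtain ⟨hj1, hj2⟩ := mem_filter.1 hj
  obtain ⟨⟨hj3, hj4⟩, hj5⟩ := sel_mem.1 hj1
  have hl0 := Nat.pos_of_mem_divisors hl
  have hlj : l ∣ j := (Nat.dvd_of_mem_divisors hl).trans hj2
  rw [sel_mem]
  simp only at hj3 hj4 hj5 hl0 hlj ⊢
  refine ⟨⟨Nat.div_pos (Nat.le_of_dvd hj3 hlj) hl0, (Nat.div_le_self j l).trans hj4⟩, ?_⟩
  exact hj5.squarefree_of_dvd (Nat.div_dvd_of_dvd hlj)

/-- **Module SEL.** -/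
theorem st_SEL : ST_SEL := by
  intro D hD
  obtain ⟨n, hn⟩ : ∃ n, n = ⌊D⌋₊ := ⟨_, rfl⟩
  have hn2 : 2 ≤ n := by
    rw [hn]
    exact Nat.le_floor (by exact_mod_cast hD)
  have hDn : D ≤ n + 1 := by
    rw [hn]
    exact (Nat.lt_floor_add_one D).le
  have hlog : Real.log D ≤ sel_G n :=
    (Real.log_le_log (by linarith) hDn).trans (sel_G_ge n)
  have hlog0 : 0 < Real.log D := Real.log_pos (by linarith)
  have hG0 : 0 < sel_G n := lt_of_lt_of_le hlog0 hlog
  let G := sel_G n
  let y : ℕ → ℝ := fun j => (ArithmeticFunction.moebius j : ℝ) / (Nat.totient j * sel_G n)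
  let ρ : ℕ → ℝ := fun d => (d : ℝ) * ∑ j ∈ Icc 1 n, if d ∣ j then
      (ArithmeticFunction.moebius (j / d) : ℝ) * y j else 0
  have hmu : ∀ m : ℕ, |(ArithmeticFunction.moebius m : ℝ)| ≤ 1 := by
    intro m
    have := ArithmeticFunction.abs_moebius_le_one (n := m)
    exact_mod_cast this
  have hy0 : ∀ j, ¬ Squarefree j → y j = 0 := by
    intro j hj
    show (ArithmeticFunction.moebius j : ℝ) / _ = 0
    rw [ArithmeticFunction.moebius_eq_zero_of_not_squarefree hj]
    simp
  have hyb : ∀ j, 1 ≤ j → |y j| ≤ 1 / (Nat.totient j * sel_G n) := by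
    intro j hj
    show |(ArithmeticFunction.moebius j : ℝ) / (Nat.totient j * sel_G n)| ≤ _
    have := sel_phi_pos hj
    rw [abs_div, abs_of_pos (a := (Nat.totient j : ℝ) * sel_G n) (by positivity)]
    exact div_le_div_of_nonneg_right (hmu j) (by positivity)
  have hnn : ∀ d ∈ Icc 1 n, ρ d / d = ∑ j ∈ Icc 1 n, if d ∣ j then
      (ArithmeticFunction.moebius (j / d) : ℝ) * y j else 0 := by
    intro d hd
    have hd0 : (d : ℝ) ≠ 0 := by
      have := (mem_Icc.1 hd).1
      exact_mod_cast (by omega : d ≠ 0)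
    show (d : ℝ) * _ / d = _
    rw [mul_div_cancel_left₀ _ hd0]
  have hQ : ∑ d ∈ Icc 1 n, ∑ e ∈ Icc 1 n, ρ d * ρ e / (Nat.lcm d e : ℝ) = 1 / sel_G n := by
    rw [sel_diag]
    have h1 : ∀ k ∈ Icc 1 n, (Nat.totient k : ℝ) *
        (∑ d ∈ Icc 1 n, if k ∣ d then ρ d / d else 0) ^ 2 =
        if Squarefree k then 1 / (Nat.totient k : ℝ) * (1 / sel_G n ^ 2) else 0 := by
      intro k hk
      have h2 : (∑ d ∈ Icc 1 n, if k ∣ d then ρ d / d else 0) = y k := by
        rw [← sel_choice n y k hk]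
        refine sum_congr rfl fun d hd => ?_
        rw [hnn d hd]
      rw [h2]
      have hφ := sel_phi_pos (mem_Icc.1 hk).1
      split_ifs with hsq
      · show (Nat.totient k : ℝ) * ((ArithmeticFunction.moebius k : ℝ) /
          (Nat.totient k * sel_G n)) ^ 2 = _
        have h3 : (ArithmeticFunction.moebius k : ℝ) ^ 2 = 1 := by
          have := (ArithmeticFunction.moebius_sq_eq_one_of_squarefree hsq)
          exact_mod_cast this
        rw [div_pow, h3]
        field_simp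
      · rw [hy0 k hsq]
        ring
    rw [sum_congr rfl h1, ← sum_filter, ← sum_mul]
    have h2 : ∑ k ∈ (Icc 1 n).filter Squarefree, 1 / (Nat.totient k : ℝ) = sel_G n := rfl
    rw [h2]
    field_simp
  refine ⟨ρ, ?_, ?_, ?_, ?_, ?_, ?_⟩
  · show ((1 : ℕ) : ℝ) * (∑ j ∈ Icc 1 n, if 1 ∣ j then
      (ArithmeticFunction.moebius (j / 1) : ℝ) * y j else 0) = 1
    have h1 : ∀ j ∈ Icc 1 n, (if 1 ∣ j then (ArithmeticFunction.moebius (j / 1) : ℝ) * y j else 0) =
        if Squarefree j then 1 / (Nat.totient j : ℝ) * (1 / sel_G n) else 0 := by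
      intro j hj
      rw [if_pos (one_dvd j), Nat.div_one]
      have hφ := sel_phi_pos (mem_Icc.1 hj).1
      split_ifs with hsq
      · show (ArithmeticFunction.moebius j : ℝ) * ((ArithmeticFunction.moebius j : ℝ) /
          (Nat.totient j * sel_G n)) = _
        have h3 : (ArithmeticFunction.moebius j : ℝ) ^ 2 = 1 := by
          have := (ArithmeticFunction.moebius_sq_eq_one_of_squarefree hsq)
          exact_mod_cast this
        rw [← mul_div_assoc, ← pow_two, h3]
        field_simp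
      · rw [hy0 j hsq, mul_zero]
    rw [sum_congr rfl h1, ← sum_filter, ← sum_mul]
    have h2 : ∑ k ∈ (Icc 1 n).filter Squarefree, 1 / (Nat.totient k : ℝ) = sel_G n := rfl
    rw [h2]
    field_simp
    simp
  · show ((0 : ℕ) : ℝ) * _ = 0
    simp
  · intro d
    rcases Nat.eq_zero_or_pos d with h0 | hd
    · rw [h0]
      show |((0 : ℕ) : ℝ) * _| ≤ 1
      simp
    · show |(d : ℝ) * ∑ j ∈ Icc 1 n, _| ≤ 1
      rw [abs_mul, abs_of_pos (a := (d : ℝ)) (by exact_mod_cast hd)]
      have h1 : |∑ j ∈ Icc 1 n, if d ∣ j then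
          (ArithmeticFunction.moebius (j / d) : ℝ) * y j else 0| ≤
          ∑ j ∈ (sel_S n).filter (fun j => d ∣ j), 1 / (Nat.totient j : ℝ) * (1 / sel_G n) := by
        refine (abs_sum_le_sum_abs _ _).trans ?_
        have h2 : (sel_S n).filter (fun j => d ∣ j) =
            (Icc 1 n).filter (fun j => Squarefree j ∧ d ∣ j) := by
          unfold sel_S
          rw [filter_filter]
        rw [h2, sum_filter]
        refine sum_le_sum fun j hj => ?_
        have hj1 := (mem_Icc.1 hj).1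
        have hφ := sel_phi_pos hj1
        by_cases hdj : d ∣ j
        · rw [if_pos hdj]
          by_cases hsq : Squarefree j
          · rw [if_pos ⟨hsq, hdj⟩, abs_mul]
            calc _ ≤ 1 * (1 / (Nat.totient j * sel_G n)) :=
                  mul_le_mul (hmu _) (hyb j hj1) (abs_nonneg _) zero_le_one
              _ = _ := by field_simp
          · rw [if_neg (fun h => hsq h.1), hy0 j hsq, mul_zero, abs_zero]
        · rw [if_neg hdj, abs_zero]
          split_ifs <;> positivity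
      calc (d : ℝ) * _ ≤ d * ∑ j ∈ (sel_S n).filter (fun j => d ∣ j),
            1 / (Nat.totient j : ℝ) * (1 / sel_G n) :=
            mul_le_mul_of_nonneg_left h1 (Nat.cast_nonneg d)
        _ = (d * ∑ j ∈ (sel_S n).filter (fun j => d ∣ j), 1 / (Nat.totient j : ℝ)) *
            (1 / sel_G n) := by rw [← sum_mul, mul_assoc]
        _ ≤ sel_G n * (1 / sel_G n) :=
            mul_le_mul_of_nonneg_right (sel_bound n d hd) (by positivity)
        _ = 1 := by field_simp
  · intro d hd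
    have hdn : n < d := by
      rw [hn]
      exact (Nat.floor_lt (by linarith)).2 hd
    show (d : ℝ) * ∑ j ∈ Icc 1 n, _ = 0
    rw [sum_eq_zero, mul_zero]
    intro j hj
    rw [if_neg]
    intro h
    have := Nat.le_of_dvd (mem_Icc.1 hj).1 h
    have := (mem_Icc.1 hj).2
    omega
  · rw [← hn, hQ]
    positivity
  · rw [← hn, hQ]
    exact one_div_le_one_div_of_le hlog0 hlog

end Pool.Agent.Helper40.MR
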